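import Mathlib
import Pool.Agent.Helper712_LP.Defs

/-!
# Poisson segments in the plane: definitions
-/

set_option autoImplicit false

namespace Pool.Agent.L0h80.CR

open MeasureTheory ProbabilityTheory Set
open scoped ENNReal NNReal
open Pool.Agent.Helper712_LP (E IsPoissonProcess HasUnboundedComponent)

/-- The unit vector `(cos θ, sin θ)` of the plane. -/
noncomputable def dir (θ : ℝ) : E 2 := WithLp.toLp 2 ![Real.cos θ, Real.sin θ]

/-- For `y = (θ, l)`: the segment from `x` to `x + l (cos θ, sin θ)`. -/
noncomputable def seg (x : E 2) (y : ℝ × ℝ) : Set (E 2) := segment ℝ x (x + y.2 • dir y.1)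

/-- The union of the segments which start at the points `x 0, x 1, …` and have the directions and
lengths `y 0, y 1, …`. -/
noncomputable def occupied (x : ℕ → E 2) (y : ℕ → ℝ × ℝ) : Set (E 2) := ⋃ i, seg (x i) (y i)

/-- The random segments of intensity `lam`: `X` enumerates a Poisson point process of intensity
`lam` in the plane, and the pairs `Y i = (θ i, L i)` of the direction and the length of the segment
which starts at `X i` are independent of each other and of the points, with the common law `W`. -/
structure Segments {Ω : Type} [MeasurableSpace Ω] (P : Measure Ω) (lam : ℝ≥0)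
    (W : Measure (ℝ × ℝ)) (X : ℕ → Ω → E 2) (Y : ℕ → Ω → ℝ × ℝ) : Prop where
  points : IsPoissonProcess P lam X
  measurable : ∀ i, Measurable (Y i)
  law : ∀ i, P.map (Y i) = W
  indep : iIndepFun Y P
  indep_points : IndepFun (fun ω i => X i ω) (fun ω i => Y i ω) P

/-- The critical intensity: the infimum of the intensities `lam > 0` for which the union of the
segments has an unbounded connected component with positive probability. -/
noncomputable def critical (W : Measure (ℝ × ℝ)) : ℝ≥0∞ :=
  sInf {c : ℝ≥0∞ | ∃ lam : ℝ≥0, 0 < lam ∧ c = lam ∧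
    ∃ (Ω : Type) (_ : MeasurableSpace Ω) (P : Measure Ω) (_ : IsProbabilityMeasure P)
      (X : ℕ → Ω → E 2) (Y : ℕ → Ω → ℝ × ℝ), Segments P lam W X Y ∧
      0 < P {ω | HasUnboundedComponent (occupied (fun i => X i ω) (fun i => Y i ω))}}

/-- The law of `(θ, L)` in the problem: `θ` is uniform on `[0, 2π)`, `L` has the law `ν` and is
independent of `θ`. -/
noncomputable def rays (ν : Measure ℝ) : Measure (ℝ × ℝ) :=
  (cond volume (Ico 0 (2 * Real.pi))).prod ν

end Pool.Agent.L0h80.CR
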