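import Pool.Agent.L0h80.CR.Defs
import Pool.Agent.H592W.Geom
import Pool.Agent.Helper56_LP.Void

/-!
# Poisson segments in the plane: the cells near a segment
-/

set_option autoImplicit false

namespace Pool.Agent.L0h80.CR

open MeasureTheory ProbabilityTheory Set
open scoped ENNReal NNReal
open Pool.Agent.Helper712_LP (E IsPoissonProcess HasUnboundedComponent cell)
open Pool.Agent.Helper56_LP (measurable_cell volume_cells measurableSet_cell)
open Pool.Agent.H592

/-! ### The shape of a segment -/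

lemma dir_abs (θ : ℝ) (j : Fin 2) : |dir θ j| ≤ 1 := by
  fin_cases j
  · exact Real.abs_cos_le_one θ
  · exact Real.abs_sin_le_one θ

/-- the cell `z` (relative to the cell of `x`) is near the segment -/
def Near (w : E 2 × (ℝ × ℝ)) (z : V 2) : Prop :=
  ∃ q : ℚ, 0 ≤ q ∧ q ≤ 1 ∧ ∀ j, |w.1 j + q * (w.2.2 * dir w.2.1 j) - cell 1 w.1 j - z j - 1 / 2| < 2

lemma cell_bd (x : E 2) (j : Fin 2) : (cell 1 x j : ℝ) ≤ x j ∧ x j < cell 1 x j + 1 := by
  unfold cell
  rw [div_one]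
  exact ⟨Int.floor_le _, Int.lt_floor_add_one _⟩

lemma near_bd {w : E 2 × (ℝ × ℝ)} {z : V 2} (h : Near w z) (j : Fin 2) :
    |(z j : ℝ)| < |w.2.2| + 3 := by
  obtain ⟨q, h0, h1, h2⟩ := h
  have h3 := h2 j
  have h4 := cell_bd w.1 j
  have h5 : |(q : ℝ) * (w.2.2 * dir w.2.1 j)| ≤ |w.2.2| := by
    rw [abs_mul, abs_mul]
    have hq : |(q : ℝ)| ≤ 1 := by
      rw [abs_of_nonneg (by exact_mod_cast h0)]
      exact_mod_cast h1
    have := dir_abs w.2.1 j
    calc |(q : ℝ)| * (|w.2.2| * |dir w.2.1 j|) ≤ 1 * (|w.2.2| * 1) := by gcongr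
      _ = _ := by ring
  rw [abs_lt] at h3 ⊢
  rw [abs_le] at h5
  constructor <;> linarith [h3.1, h3.2, h4.1, h4.2, h5.1, h5.2]

lemma near_finite (w : E 2 × (ℝ × ℝ)) : {z | Near w z}.Finite := by
  refine (Set.finite_Icc (fun _ => -⌈|w.2.2| + 3⌉ : V 2) (fun _ => ⌈|w.2.2| + 3⌉)).subset ?_
  intro z hz
  have h : ∀ j, |(z j : ℝ)| ≤ ⌈|w.2.2| + 3⌉ := fun j =>
    (near_bd hz j).le.trans (Int.le_ceil _)
  constructor
  · intro j
    have := (abs_le.1 (h j)).1
    exact_mod_cast this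
  · intro j
    have := (abs_le.1 (h j)).2
    exact_mod_cast this

/-- the shape of the segment -/
noncomputable def shp (w : E 2 × (ℝ × ℝ)) : Finset (V 2) := (near_finite w).toFinset

lemma mem_shp {w : E 2 × (ℝ × ℝ)} {z : V 2} : z ∈ shp w ↔ Near w z := by
  unfold shp
  rw [Set.Finite.mem_toFinset]
  rfl

lemma zero_mem_shp (w : E 2 × (ℝ × ℝ)) : (0 : V 2) ∈ shp w := by
  rw [mem_shp]
  refine ⟨0, le_rfl, zero_le_one, fun j => ?_⟩
  have h4 := cell_bd w.1 j
  rw [abs_lt]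
  push_cast
  simp only [Pi.zero_apply, Int.cast_zero]
  constructor <;> linarith [h4.1, h4.2]

/-- the key of a marked point -/
noncomputable def key (w : E 2 × (ℝ × ℝ)) : V 2 × Finset (V 2) := (cell 1 w.1, shp w)

lemma measurable_near (z : V 2) : MeasurableSet {w : E 2 × (ℝ × ℝ) | Near w z} := by
  have h : {w : E 2 × (ℝ × ℝ) | Near w z} = ⋃ q : {q : ℚ // 0 ≤ q ∧ q ≤ 1}, ⋂ j : Fin 2,
      {w : E 2 × (ℝ × ℝ) |
        |w.1 j + (q.1 : ℝ) * (w.2.2 * dir w.2.1 j) - cell 1 w.1 j - z j - 1 / 2| < 2} := by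
    ext w
    simp only [mem_ofPred_eq, mem_iUnion, mem_iInter]
    constructor
    · rintro ⟨q, h0, h1, h2⟩
      exact ⟨⟨q, h0, h1⟩, h2⟩
    · rintro ⟨⟨q, h0, h1⟩, h2⟩
      exact ⟨q, h0, h1, h2⟩
  rw [h]
  refine MeasurableSet.iUnion fun q => MeasurableSet.iInter fun j => ?_
  have hc : Measurable fun w : E 2 × (ℝ × ℝ) => ((cell 1 w.1 j : ℤ) : ℝ) :=
    (measurable_from_top (f := fun n : ℤ => (n : ℝ))).comp
      ((measurable_pi_apply j).comp ((measurable_cell 1).comp measurable_fst))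
  have hx : Measurable fun w : E 2 × (ℝ × ℝ) => w.1 j := by
    have : Continuous fun w : E 2 × (ℝ × ℝ) => w.1 j := by fun_prop
    exact this.measurable
  have hd : Measurable fun w : E 2 × (ℝ × ℝ) => dir w.2.1 j := by
    fin_cases j
    · show Measurable fun w : E 2 × (ℝ × ℝ) => Real.cos w.2.1
      fun_prop
    · show Measurable fun w : E 2 × (ℝ × ℝ) => Real.sin w.2.1
      fun_prop
  have hl : Measurable fun w : E 2 × (ℝ × ℝ) => w.2.2 := by fun_prop
  exact measurableSet_lt ((((hx.add ((hl.mul hd).const_mul _)).sub hc).sub_const _).sub_const _).abs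
    measurable_const

lemma measurable_shp (A : Finset (V 2)) : MeasurableSet {w : E 2 × (ℝ × ℝ) | shp w = A} := by
  classical
  have h : {w : E 2 × (ℝ × ℝ) | shp w = A} = ⋂ z : V 2, {w | Near w z ↔ z ∈ A} := by
    ext w
    simp only [mem_ofPred_eq, mem_iInter, Finset.ext_iff, mem_shp]
  rw [h]
  refine MeasurableSet.iInter fun z => ?_
  by_cases hz : z ∈ A
  · simp only [hz, iff_true]
    exact measurable_near z
  · simp only [hz, iff_false]
    exact (measurable_near z).compl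

lemma measurable_key (k : V 2 × Finset (V 2)) : MeasurableSet {w | key w = k} := by
  have h : {w | key w = k} = (fun w : E 2 × (ℝ × ℝ) => cell 1 w.1) ⁻¹' {k.1} ∩ {w | shp w = k.2} := by
    ext w
    simp only [mem_ofPred_eq, mem_inter_iff, mem_preimage, mem_singleton_iff, key, Prod.ext_iff]
  rw [h]
  exact (((measurable_cell 1).comp measurable_fst) (measurableSet_singleton _)).inter
    (measurable_shp _)

/-! ### The area from which a segment meets a box -/

lemma volume_box (a : Fin 2 → ℝ) {ρ : ℝ} (hρ : 0 ≤ ρ) :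
    volume {x : E 2 | ∀ j, |x j - a j| ≤ ρ} = ENNReal.ofReal ((2 * ρ) ^ 2) := by
  have h : {x : E 2 | ∀ j, |x j - a j| ≤ ρ} = (WithLp.ofLp : E 2 → (Fin 2 → ℝ)) ⁻¹'
      (Set.pi univ fun j => Icc (a j - ρ) (a j + ρ)) := by
    ext x
    simp only [mem_ofPred_eq, mem_preimage, Set.mem_pi, mem_univ, forall_true_left, mem_Icc, abs_le]
    constructor
    · intro h j
      constructor <;> linarith [(h j).1, (h j).2]
    · intro h j
      constructor <;> linarith [(h j).1, (h j).2]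
  rw [h, (PiLp.volume_preserving_ofLp (Fin 2)).measure_preimage
    (MeasurableSet.univ_pi fun j => measurableSet_Icc).nullMeasurableSet, volume_pi_pi]
  simp only [Fin.prod_univ_two, Real.volume_Icc]
  rw [← ENNReal.ofReal_mul (by linarith)]
  congr 1
  ring

lemma touch_sub (c : V 2) (R : ℕ) (y : ℝ × ℝ) :
    {x : E 2 | touches (key (x, y)) c R} ⊆
      {x : E 2 | ∃ q : ℝ, 0 ≤ q ∧ q ≤ 1 ∧ ∀ j, |x j + q * (y.2 * dir y.1 j) - c j| ≤ R + 3} := by
  rintro x ⟨a, ha, hB⟩
  obtain ⟨q, h0, h1, h2⟩ := mem_shp.1 ha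
  refine ⟨q, by exact_mod_cast h0, by exact_mod_cast h1, fun j => ?_⟩
  have h3 := h2 j
  have h4 := mem_Bx.1 hB j
  have h5 : |((cell 1 x j : ℝ) + a j) - c j| ≤ R := by
    have h6 : (key (x, y)).1 j = cell 1 x j := rfl
    rw [Pi.add_apply, h6] at h4
    exact_mod_cast h4
  rw [abs_lt] at h3
  rw [abs_le] at h5 ⊢
  simp only at h3
  constructor <;> linarith [h3.1, h3.2, h5.1, h5.2]

lemma volume_touch (c : V 2) {R : ℕ} (hR : 1 ≤ R) (y : ℝ × ℝ) :
    volume {x : E 2 | touches (key (x, y)) c R} ≤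
      ENNReal.ofReal (100 * R * |y.2| + 300 * R ^ 2) := by
  have hR0 : (0 : ℝ) < R := by exact_mod_cast hR
  have hR1 : (1 : ℝ) ≤ R := by exact_mod_cast hR
  set M : ℕ := ⌈|y.2| / R⌉₊ + 1 with hM
  have hM1 : (1 : ℝ) ≤ M := by
    rw [hM]; push_cast; linarith [Nat.cast_nonneg (α := ℝ) ⌈|y.2| / R⌉₊]
  have hM0 : (0 : ℝ) < M := by linarith
  have hl : |y.2| ≤ M * R := by
    have h1 := Nat.le_ceil (|y.2| / (R : ℝ))
    have h2 : |y.2| / R ≤ M := by rw [hM]; push_cast; linarith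
    rwa [div_le_iff₀ hR0] at h2
  have hM2 : (M : ℝ) ≤ |y.2| / R + 2 := by
    have h1 := Nat.ceil_lt_add_one (a := |y.2| / (R : ℝ)) (by positivity)
    rw [hM]; push_cast; linarith
  have hsub : {x : E 2 | touches (key (x, y)) c R} ⊆ ⋃ m ∈ Finset.range (M + 1),
      {x : E 2 | ∀ j, |x j - (c j - m / M * (y.2 * dir y.1 j))| ≤ 2 * R + 3} := by
    refine (touch_sub c R y).trans ?_
    rintro x ⟨q, h0, h1, h2⟩
    rw [mem_iUnion₂]
    refine ⟨⌊q * M⌋₊, ?_, fun j => ?_⟩
    · rw [Finset.mem_range]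
      have h3 : (⌊q * M⌋₊ : ℝ) ≤ q * M := Nat.floor_le (by positivity)
      have h4 : (⌊q * M⌋₊ : ℝ) ≤ M := by nlinarith
      have h5 : ⌊q * M⌋₊ ≤ M := by exact_mod_cast h4
      omega
    · have h3 : (⌊q * M⌋₊ : ℝ) ≤ q * M := Nat.floor_le (by positivity)
      have h4 : q * M < ⌊q * M⌋₊ + 1 := Nat.lt_floor_add_one _
      have h5 : |q - (⌊q * M⌋₊ : ℝ) / M| ≤ 1 / M := by
        have e : q - (⌊q * M⌋₊ : ℝ) / M = (q * M - ⌊q * M⌋₊) / M := by field_simp
        rw [e, abs_of_nonneg (div_nonneg (by linarith) hM0.le)]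
        gcongr
        linarith
      have h6 : |(q - (⌊q * M⌋₊ : ℝ) / M) * (y.2 * dir y.1 j)| ≤ R := by
        rw [abs_mul, abs_mul]
        calc |q - (⌊q * M⌋₊ : ℝ) / M| * (|y.2| * |dir y.1 j|) ≤ 1 / M * (M * R * 1) := by
              gcongr
              exact dir_abs _ _
          _ = R := by field_simp
      have h7 := h2 j
      rw [abs_le] at h6 h7 ⊢
      constructor <;> linarith [h6.1, h6.2, h7.1, h7.2]
  refine (measure_mono hsub).trans ((measure_biUnion_finset_le _ _).trans ?_)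
  have hv : ∀ m ∈ Finset.range (M + 1), volume {x : E 2 | ∀ j, |x j - (c j - (m : ℝ) / M *
      (y.2 * dir y.1 j))| ≤ 2 * R + 3} = ENNReal.ofReal ((2 * (2 * R + 3)) ^ 2) := fun m _ =>
    volume_box _ (by positivity)
  rw [Finset.sum_congr rfl hv, Finset.sum_const, Finset.card_range, nsmul_eq_mul,
    ← ENNReal.ofReal_natCast, ← ENNReal.ofReal_mul (by positivity)]
  refine ENNReal.ofReal_le_ofReal ?_
  push_cast
  have h8 : ((2 * (2 * (R : ℝ) + 3)) ^ 2) ≤ 100 * R ^ 2 := by nlinarith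
  have h9 : (M : ℝ) + 1 ≤ |y.2| / R + 3 := by linarith
  calc ((M : ℝ) + 1) * (2 * (2 * R + 3)) ^ 2 ≤ (|y.2| / R + 3) * (100 * R ^ 2) := by gcongr
    _ = _ := by field_simp; ring

lemma bad_len {c : V 2} {r : ℕ} {w : E 2 × (ℝ × ℝ)} (h : bad c r (key w)) :
    (r : ℝ) < |w.2.2| + 4 := by
  obtain ⟨_, h | h⟩ := h
  · exact absurd (zero_mem_shp w) h
  · unfold small at h
    push Not at h
    obtain ⟨a, ha, b, hb, j, hj⟩ := h
    obtain ⟨q, h0, h1, h2⟩ := mem_shp.1 ha
    obtain ⟨q', h0', h1', h2'⟩ := mem_shp.1 hb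
    have h3 := h2 j
    have h3' := h2' j
    have h4 : |((q : ℝ) - q') * (w.2.2 * dir w.2.1 j)| ≤ |w.2.2| := by
      rw [abs_mul, abs_mul]
      have e0 : (0 : ℝ) ≤ q := by exact_mod_cast h0
      have e1 : (q : ℝ) ≤ 1 := by exact_mod_cast h1
      have e0' : (0 : ℝ) ≤ q' := by exact_mod_cast h0'
      have e1' : (q' : ℝ) ≤ 1 := by exact_mod_cast h1'
      have hq : |(q : ℝ) - q'| ≤ 1 := by
        rw [abs_le]
        constructor <;> linarith
      calc |(q : ℝ) - q'| * (|w.2.2| * |dir w.2.1 j|) ≤ 1 * (|w.2.2| * 1) := by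
            gcongr
            exact dir_abs _ _
        _ = _ := by ring
    have h5 : (r : ℝ) ≤ |(a j : ℝ) - b j| := by exact_mod_cast hj
    have h6 : |(a j : ℝ) - b j| < |w.2.2| + 4 := by
      rw [abs_lt] at h3 h3' ⊢
      rw [abs_le] at h4
      constructor <;> linarith [h3.1, h3.2, h3'.1, h3'.2, h4.1, h4.2]
    linarith

/-! ### From the plane to the lattice -/

lemma rat_near {q δ : ℝ} (h0 : 0 ≤ q) (h1 : q ≤ 1) (hδ : 0 < δ) :
    ∃ q' : ℚ, 0 ≤ q' ∧ q' ≤ 1 ∧ |q - q'| < δ := by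
  obtain ⟨q', h2, h3⟩ := exists_rat_btwn (show max 0 (q - δ) < min 1 (q + δ) by
    rw [max_lt_iff, lt_min_iff, lt_min_iff]
    exact ⟨⟨zero_lt_one, by linarith⟩, by linarith, by linarith⟩)
  rw [max_lt_iff] at h2
  rw [lt_min_iff] at h3
  refine ⟨q', by exact_mod_cast h2.1.le, by exact_mod_cast h3.1.le, ?_⟩
  rw [abs_lt]
  constructor <;> linarith [h2.2, h3.2]

/-- all cells around a point of the segment belong to the shape -/
lemma near_of_mem {x : E 2} {y : ℝ × ℝ} {p : E 2} (hp : p ∈ seg x y) {z : V 2}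
    (hz : ∀ j, |z j - cell 1 p j| ≤ 1) : z - cell 1 x ∈ shp (x, y) := by
  unfold seg at hp
  rw [segment_eq_image'] at hp
  obtain ⟨q, ⟨h0, h1⟩, rfl⟩ := hp
  obtain ⟨q', h0', h1', hq⟩ := rat_near h0 h1 (δ := 1 / (4 * (|y.2| + 1))) (by positivity)
  rw [mem_shp]
  refine ⟨q', h0', h1', fun j => ?_⟩
  simp only [add_sub_cancel_left] at hz
  have h2 := hz j
  have h3 := cell_bd (x + q • y.2 • dir y.1) j
  have e1 : (x + q • y.2 • dir y.1) j = x j + q * (y.2 * dir y.1 j) := rfl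
  rw [e1] at h3
  have h4 : |(z j : ℝ) - cell 1 (x + q • y.2 • dir y.1) j| ≤ 1 := by exact_mod_cast h2
  have h5 : |(q - (q' : ℝ)) * (y.2 * dir y.1 j)| ≤ 1 / 4 := by
    rw [abs_mul, abs_mul]
    have h6 : |y.2| / (|y.2| + 1) ≤ 1 := by
      rw [div_le_one (by positivity)]
      linarith
    calc |q - (q' : ℝ)| * (|y.2| * |dir y.1 j|) ≤ 1 / (4 * (|y.2| + 1)) * (|y.2| * 1) := by
          gcongr
          exact dir_abs _ _
      _ = |y.2| / (|y.2| + 1) / 4 := by field_simp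
      _ ≤ _ := by linarith
  rw [Pi.sub_apply]
  push_cast
  rw [abs_le] at h4 h5
  rw [abs_lt]
  constructor <;> linarith [h3.1, h3.2, h4.1, h4.2, h5.1, h5.2]

/-- the set of the keys of a configuration -/
def keys (x : ℕ → E 2) (y : ℕ → ℝ × ℝ) : Set (V 2 × Finset (V 2)) := {k | ∃ i, key (x i, y i) = k}

lemma occ_of_mem {x : ℕ → E 2} {y : ℕ → ℝ × ℝ} {p : E 2} (hp : p ∈ occupied x y) {z : V 2}
    (hz : ∀ j, |z j - cell 1 p j| ≤ 1) : z ∈ occ (keys x y) := by
  unfold occupied at hp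
  rw [mem_iUnion] at hp
  obtain ⟨i, hi⟩ := hp
  exact ⟨key (x i, y i), ⟨i, rfl⟩, near_of_mem hi hz⟩

lemma step_conn {U : Set (V 2)} {a b : V 2} (h : ∀ z : V 2, (∀ j, |z j - a j| ≤ 1) → z ∈ U)
    (hb : b ∈ U) (hab : ∀ j, |b j - a j| ≤ 1) : conn U a b := by
  have ha : a ∈ U := h a fun j => by simp
  -- the intermediate cell
  set m : V 2 := ![b 0, a 1] with hm
  have hm0 : m 0 = b 0 := rfl
  have hm1 : m 1 = a 1 := rfl
  have hmU : m ∈ U := h m fun j => by
    fin_cases j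
    · show |m 0 - a 0| ≤ 1
      rw [hm0]; exact hab 0
    · show |m 1 - a 1| ≤ 1
      rw [hm1]; simp
  have key1 : ∀ {u v : V 2}, u ∈ U → v ∈ U → (∑ j, |u j - v j| ≤ 1) → conn U u v := by
    intro u v hu hv huv
    by_cases h0 : u = v
    · rw [h0]; exact Relation.ReflTransGen.refl
    · refine Relation.ReflTransGen.single ⟨hu, hv, ?_⟩
      unfold nb
      refine le_antisymm huv ?_
      by_contra hlt
      push Not at hlt
      apply h0
      funext j
      have h1 : |u j - v j| ≤ ∑ j, |u j - v j| :=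
        Finset.single_le_sum (f := fun j => |u j - v j|) (fun i _ => abs_nonneg _)
          (Finset.mem_univ j)
      have h2 : |u j - v j| = 0 := by
        have := abs_nonneg (u j - v j)
        omega
      have := abs_eq_zero.1 h2
      omega
  refine Relation.ReflTransGen.trans (b := m) (key1 ha hmU ?_) (key1 hmU hb ?_)
  · rw [Fin.sum_univ_two, hm0, hm1, sub_self, abs_zero, add_zero, abs_sub_comm]
    exact hab 0
  · rw [Fin.sum_univ_two, hm0, hm1, sub_self, abs_zero, zero_add, abs_sub_comm]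
    exact hab 1

lemma cell_close {p p' : E 2} (h : ∀ j, |p' j - p j| < 1) (j : Fin 2) :
    |cell 1 p' j - cell 1 p j| ≤ 1 := by
  have h1 := cell_bd p j
  have h2 := cell_bd p' j
  have h3 := abs_lt.1 (h j)
  have h4 : (-2 : ℝ) < (cell 1 p' j : ℝ) - cell 1 p j := by linarith [h1.1, h2.2, h3.1]
  have h5 : (cell 1 p' j : ℝ) - cell 1 p j < 2 := by linarith [h1.2, h2.1, h3.2]
  have h6 : (-2 : ℤ) < cell 1 p' j - cell 1 p j := by exact_mod_cast h4
  have h7 : cell 1 p' j - cell 1 p j < 2 := by exact_mod_cast h5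
  rw [abs_le]
  omega

/-- an unbounded component gives an infinite cluster -/
theorem perc_of_unbounded {x : ℕ → E 2} {y : ℕ → ℝ × ℝ}
    (h : HasUnboundedComponent (occupied x y)) : perc (occ (keys x y)) := by
  obtain ⟨p0, hp0, hub⟩ := h
  set S := occupied x y with hS
  set U := occ (keys x y) with hU
  set C := connectedComponentIn S p0 with hC
  have hCS : C ⊆ S := connectedComponentIn_subset S p0
  have hCpre : IsPreconnected C := isPreconnected_connectedComponentIn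
  have hloc : ∀ p ∈ C, ∀ᶠ p' in nhdsWithin p C, conn U (cell 1 p) (cell 1 p') := by
    intro p hp
    have h1 : ∀ᶠ p' in nhds p, ∀ j, |p' j - p j| < 1 := by
      rw [Filter.eventually_all]
      intro j
      have hc : Continuous fun p' : E 2 => |p' j - p j| := by fun_prop
      have h2 := hc.tendsto p
      simp only [sub_self, abs_zero] at h2
      exact h2.eventually (gt_mem_nhds one_pos)
    have h2 : ∀ᶠ p' in nhdsWithin p C, ∀ j, |p' j - p j| < 1 :=
      h1.filter_mono nhdsWithin_le_nhds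
    filter_upwards [h2, self_mem_nhdsWithin] with p' h3 h4
    refine step_conn (fun z hz => occ_of_mem (hCS hp) hz) ?_ (cell_close h3)
    exact occ_of_mem (hCS h4) fun j => by simp
  have hall : ∀ p ∈ C, conn U (cell 1 p0) (cell 1 p) := by
    intro p hp
    refine hCpre.induction₂ (P := fun p p' => conn U (cell 1 p) (cell 1 p')) hloc ?_ ?_
      (mem_connectedComponentIn hp0) hp
    · intro a b c _ _ _ h1 h2
      exact Relation.ReflTransGen.trans h1 h2
    · intro a b _ _ h1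
      exact conn_symm h1
  refine ⟨cell 1 p0, ?_⟩
  intro hfin
  apply hub
  have h2 : C ⊆ ⋃ z ∈ {z | conn U (cell 1 p0) z}, {p : E 2 | cell 1 p = z} := by
    intro p hp
    rw [mem_iUnion₂]
    exact ⟨cell 1 p, hall p hp, rfl⟩
  refine Bornology.IsBounded.subset ?_ h2
  rw [Bornology.isBounded_biUnion hfin]
  intro z _
  rw [Pool.Agent.Helper56_LP.cell_preimage one_pos z]
  have h3 : Bornology.IsBounded (Set.pi univ fun j : Fin 2 =>
      Ico (1 * (z j : ℝ)) (1 * (z j : ℝ) + 1)) :=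
    Bornology.IsBounded.pi fun j => Metric.isBounded_Ico _ _
  have h4 := (PiLp.antilipschitzWith_ofLp 2 fun _ : Fin 2 => ℝ)
  exact h4.isBounded_preimage h3

end Pool.Agent.L0h80.CR
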