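import Pool.Agent.L0h80.CR.Prob

/-!
# Tails, existence of the models, and a law with infinite second moment
-/

set_option autoImplicit false

namespace Pool.Agent.L0h80.CR

open MeasureTheory ProbabilityTheory Set
open scoped ENNReal NNReal
open Pool.Agent.Helper712_LP (E IsPoissonProcess HasUnboundedComponent cell)

/-! ### Tails -/

/-- on `r ≤ l`: `l` is at most the sum of `2 ^ (k + 1) r` over the `k` with `2 ^ k r ≤ l` -/
lemma le_dyadic {r l : ℝ} (hr : 0 < r) (hl : r ≤ l) :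
    ENNReal.ofReal l ≤ ∑' k : ℕ, (if (2 : ℝ) ^ k * r ≤ l then ENNReal.ofReal (2 ^ (k + 1) * r)
      else 0) := by
  classical
  have hex : ∃ n : ℕ, l < 2 ^ n * r := by
    obtain ⟨n, hn⟩ := pow_unbounded_of_one_lt (l / r) (one_lt_two (α := ℝ))
    exact ⟨n, by rwa [div_lt_iff₀ hr] at hn⟩
  have hn := Nat.find_spec hex
  have hn0 : Nat.find hex ≠ 0 := by
    intro h0
    rw [h0, pow_zero, one_mul] at hn
    linarith
  obtain ⟨k, hk⟩ := Nat.exists_eq_succ_of_ne_zero hn0
  have hk1 : (2 : ℝ) ^ k * r ≤ l := by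
    have := Nat.find_min hex (m := k) (by omega)
    push Not at this
    exact this
  rw [hk] at hn
  calc ENNReal.ofReal l ≤ ENNReal.ofReal (2 ^ (k + 1) * r) := ENNReal.ofReal_le_ofReal hn.le
    _ = (if (2 : ℝ) ^ k * r ≤ l then ENNReal.ofReal (2 ^ (k + 1) * r) else 0) := by rw [if_pos hk1]
    _ ≤ _ := ENNReal.le_tsum (f := fun k : ℕ => (if (2 : ℝ) ^ k * r ≤ l then
        ENNReal.ofReal (2 ^ (k + 1) * r) else 0)) k

lemma tail_bound (W : Measure (ℝ × ℝ)) (C : ℝ≥0)
    (hC : ∀ s : ℝ, 1 ≤ s → ENNReal.ofReal (s ^ 2) * W {y | s ≤ y.2} ≤ C) (r : ℝ) (hr : 1 ≤ r) :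
    ENNReal.ofReal r * ∫⁻ y in {y | r ≤ y.2}, ENNReal.ofReal y.2 ∂W ≤ (4 * C : ℝ≥0) := by
  have hr0 : 0 < r := by linarith
  have hms : ∀ s : ℝ, MeasurableSet {y : ℝ × ℝ | s ≤ y.2} := fun s =>
    measurableSet_le measurable_const measurable_snd
  have h1 : ∫⁻ y in {y | r ≤ y.2}, ENNReal.ofReal y.2 ∂W ≤ ∑' k : ℕ,
      ENNReal.ofReal (2 ^ (k + 1) * r) * W {y | (2 : ℝ) ^ k * r ≤ y.2} := by
    calc ∫⁻ y in {y | r ≤ y.2}, ENNReal.ofReal y.2 ∂W ≤ ∫⁻ y in {y | r ≤ y.2}, ∑' k : ℕ,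
        ({y : ℝ × ℝ | (2 : ℝ) ^ k * r ≤ y.2}.indicator
          (fun _ => ENNReal.ofReal (2 ^ (k + 1) * r)) y) ∂W := by
          refine setLIntegral_mono' (hms r) fun y hy => ?_
          refine (le_dyadic hr0 hy).trans (le_of_eq ?_)
          refine tsum_congr fun k => ?_
          rw [indicator_apply]
          rfl
      _ ≤ ∫⁻ y, ∑' k : ℕ, ({y : ℝ × ℝ | (2 : ℝ) ^ k * r ≤ y.2}.indicator
          (fun _ => ENNReal.ofReal (2 ^ (k + 1) * r)) y) ∂W := setLIntegral_le_lintegral _ _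
      _ = ∑' k : ℕ, ENNReal.ofReal (2 ^ (k + 1) * r) * W {y | (2 : ℝ) ^ k * r ≤ y.2} := by
          rw [lintegral_tsum fun k => (measurable_const.indicator (hms _)).aemeasurable]
          refine tsum_congr fun k => ?_
          rw [lintegral_indicator (hms _), lintegral_const, Measure.restrict_apply_univ]
  have h2 : ∀ k : ℕ, ENNReal.ofReal r * (ENNReal.ofReal (2 ^ (k + 1) * r) *
      W {y | (2 : ℝ) ^ k * r ≤ y.2}) ≤ ENNReal.ofReal (2 * (1 / 2) ^ k) * C := by
    intro k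
    have h2k : (1 : ℝ) ≤ 2 ^ k := one_le_pow₀ (by norm_num)
    have h3 := hC (2 ^ k * r) (by nlinarith)
    have e1 : r * (2 ^ (k + 1) * r) = (2 * (1 / 2) ^ k) * (2 ^ k * r) ^ 2 := by
      have h4 : ((1 : ℝ) / 2) ^ k * 2 ^ k = 1 := by
        rw [← mul_pow]; norm_num
      calc r * (2 ^ (k + 1) * r) = 2 * 1 * (2 ^ k * r ^ 2) := by ring
        _ = 2 * (((1 : ℝ) / 2) ^ k * 2 ^ k) * (2 ^ k * r ^ 2) := by rw [h4]
        _ = _ := by ring
    rw [← mul_assoc, ← ENNReal.ofReal_mul hr0.le, e1, ENNReal.ofReal_mul (by positivity), mul_assoc]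
    exact mul_le_mul' le_rfl h3
  have h5 : HasSum (fun k : ℕ => (2 : ℝ) * (1 / 2) ^ k) 4 := by
    have := (hasSum_geometric_two).mul_left 2
    norm_num at this ⊢
    exact this
  calc ENNReal.ofReal r * ∫⁻ y in {y | r ≤ y.2}, ENNReal.ofReal y.2 ∂W
      ≤ ENNReal.ofReal r * ∑' k : ℕ, ENNReal.ofReal (2 ^ (k + 1) * r) *
        W {y | (2 : ℝ) ^ k * r ≤ y.2} := mul_le_mul' le_rfl h1
    _ = ∑' k : ℕ, ENNReal.ofReal r * (ENNReal.ofReal (2 ^ (k + 1) * r) *
        W {y | (2 : ℝ) ^ k * r ≤ y.2}) := ENNReal.tsum_mul_left.symm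
    _ ≤ ∑' k : ℕ, ENNReal.ofReal (2 * (1 / 2) ^ k) * C := ENNReal.tsum_le_tsum h2
    _ = ENNReal.ofReal 4 * C := by
        rw [ENNReal.tsum_mul_right, ← ENNReal.ofReal_tsum_of_nonneg (fun k => by positivity)
          h5.summable, h5.tsum_eq]
    _ = _ := by
        rw [ENNReal.coe_mul]
        congr 1
        rw [ENNReal.ofReal_eq_coe_nnreal (by norm_num : (0 : ℝ) ≤ 4)]
        rfl

/-! ### Existence of the models -/

theorem exists_segments (W : Measure (ℝ × ℝ)) [IsProbabilityMeasure W] (lam : ℝ≥0)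
    (hlam : 0 < lam) : ∃ (Ω : Type) (_ : MeasurableSpace Ω) (P : Measure Ω)
    (_ : IsProbabilityMeasure P) (X : ℕ → Ω → E 2) (Y : ℕ → Ω → ℝ × ℝ),
    Segments P lam W X Y := by
  obtain ⟨Ω, _, P, _, x, hx⟩ := Pool.Agent.Helper56_LP.exists_ppp 2 (by norm_num) lam hlam
  set Q : Measure (ℕ → ℝ × ℝ) := Measure.infinitePi fun _ : ℕ => W with hQ
  have hfst : MeasurePreserving (Prod.fst : Ω × (ℕ → ℝ × ℝ) → Ω) (P.prod Q) P :=
    measurePreserving_fst
  have hsnd : MeasurePreserving (Prod.snd : Ω × (ℕ → ℝ × ℝ) → (ℕ → ℝ × ℝ)) (P.prod Q) Q :=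
    measurePreserving_snd
  refine ⟨Ω × (ℕ → ℝ × ℝ), inferInstance, P.prod Q, inferInstance, fun i ω => x i ω.1,
    fun i ω => ω.2 i, ?_, ?_, ?_, ?_, ?_⟩
  · refine ⟨fun i => (hx.measurable i).comp measurable_fst, ?_, ?_⟩
    · intro A hA hA'
      have hcm : Measurable (Pool.Agent.Helper712_LP.count x A) := by
        unfold Pool.Agent.Helper712_LP.count
        exact Measurable.tsum fun i => (measurable_const.indicator hA).comp (hx.measurable i)
      have e : Pool.Agent.Helper712_LP.count (fun i (ω : Ω × (ℕ → ℝ × ℝ)) => x i ω.1) A =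
          Pool.Agent.Helper712_LP.count x A ∘ Prod.fst := rfl
      rw [e, ← Measure.map_map hcm measurable_fst, hfst.map_eq]
      exact hx.law A hA hA'
    · intro ι _ A hA hA' hd
      have hcm : ∀ i, Measurable (Pool.Agent.Helper712_LP.count x (A i)) := by
        intro i
        unfold Pool.Agent.Helper712_LP.count
        exact Measurable.tsum fun j =>
          (measurable_const.indicator (hA i)).comp (hx.measurable j)
      have h1 := hx.indep ι A hA hA' hd
      rw [iIndepFun_iff_measure_inter_preimage_eq_mul] at h1 ⊢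
      intro S sets hsets
      have h2 := h1 S hsets
      have e1 : (⋂ i ∈ S, (Pool.Agent.Helper712_LP.count
          (fun i (ω : Ω × (ℕ → ℝ × ℝ)) => x i ω.1) (A i)) ⁻¹' sets i) =
          Prod.fst ⁻¹' (⋂ i ∈ S, Pool.Agent.Helper712_LP.count x (A i) ⁻¹' sets i) := by
        simp only [preimage_iInter]
        rfl
      have e2 : ∀ i ∈ S, (P.prod Q) ((Pool.Agent.Helper712_LP.count
          (fun i (ω : Ω × (ℕ → ℝ × ℝ)) => x i ω.1) (A i)) ⁻¹' sets i) =
          P (Pool.Agent.Helper712_LP.count x (A i) ⁻¹' sets i) := by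
        intro i hi
        exact hfst.measure_preimage (((hcm i) (hsets i hi)).nullMeasurableSet)
      rw [e1, hfst.measure_preimage (MeasurableSet.nullMeasurableSet
        (Finset.measurableSet_biInter S fun i hi => (hcm i) (hsets i hi))), h2]
      exact (Finset.prod_congr rfl e2).symm
  · exact fun i => (measurable_pi_apply i).comp measurable_snd
  · intro i
    have e : (fun ω : Ω × (ℕ → ℝ × ℝ) => ω.2 i) = (fun y : ℕ → ℝ × ℝ => y i) ∘ Prod.snd := rfl
    rw [e, ← Measure.map_map (measurable_pi_apply i) measurable_snd, hsnd.map_eq, hQ,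
      Measure.infinitePi_map_eval]
  · have h1 : iIndepFun (fun (i : ℕ) (y : ℕ → ℝ × ℝ) => y i) Q :=
      iIndepFun_infinitePi (P := fun _ : ℕ => W) (X := fun _ y => y) (fun _ => measurable_id)
    rw [iIndepFun_iff_measure_inter_preimage_eq_mul] at h1 ⊢
    intro S sets hsets
    have h2 := h1 S hsets
    have e1 : (⋂ i ∈ S, (fun ω : Ω × (ℕ → ℝ × ℝ) => ω.2 i) ⁻¹' sets i) =
        Prod.snd ⁻¹' (⋂ i ∈ S, (fun y : ℕ → ℝ × ℝ => y i) ⁻¹' sets i) := by
      simp only [preimage_iInter]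
      rfl
    have e2 : ∀ i ∈ S, (P.prod Q) ((fun ω : Ω × (ℕ → ℝ × ℝ) => ω.2 i) ⁻¹' sets i) =
        Q ((fun y : ℕ → ℝ × ℝ => y i) ⁻¹' sets i) := by
      intro i hi
      exact hsnd.measure_preimage (((measurable_pi_apply i) (hsets i hi)).nullMeasurableSet)
    rw [e1, hsnd.measure_preimage (MeasurableSet.nullMeasurableSet
      (Finset.measurableSet_biInter S fun i hi => (measurable_pi_apply i) (hsets i hi))), h2]
    exact (Finset.prod_congr rfl e2).symm
  · have h1 : IndepFun (Prod.fst : Ω × (ℕ → ℝ × ℝ) → Ω) Prod.snd (P.prod Q) :=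
      indepFun_prod measurable_id measurable_id
    have h2 := h1.comp (φ := fun ω i => x i ω) (ψ := id) (measurable_pi_iff.mpr hx.measurable)
      measurable_id
    exact h2

/-! ### A law with infinite second moment -/

instance : IsProbabilityMeasure (paretoMeasure 1 2) :=
  isProbabilityMeasure_paretoMeasure one_pos two_pos

lemma pareto_tail {s : ℝ} (hs : 1 ≤ s) :
    ENNReal.ofReal (s ^ 2) * paretoMeasure 1 2 (Ici s) = 1 := by
  have hs0 : 0 < s := by linarith
  unfold paretoMeasure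
  rw [withDensity_apply _ measurableSet_Ici]
  have h1 : ∫⁻ x in Ici s, paretoPDF s 2 x = 1 := by
    have h2 := lintegral_paretoPDF_eq_one hs0 (two_pos (α := ℝ))
    rw [← lintegral_add_compl _ (measurableSet_Ici (a := s)), compl_Ici,
      lintegral_paretoPDF_of_le (le_refl s), add_zero] at h2
    exact h2
  rw [← lintegral_const_mul' _ _ ENNReal.ofReal_ne_top, ← h1]
  refine setLIntegral_congr_fun measurableSet_Ici fun x hx => ?_
  have hx' : s ≤ x := hx
  show ENNReal.ofReal (s ^ 2) * paretoPDF 1 2 x = paretoPDF s 2 x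
  rw [paretoPDF_of_le hx', paretoPDF_of_le (hs.trans hx'), ← ENNReal.ofReal_mul (by positivity)]
  congr 1
  rw [Real.one_rpow, mul_one, ← mul_assoc, mul_comm (s ^ 2) 2]
  congr 2
  exact (Real.rpow_two s).symm

lemma pareto_nonpos : paretoMeasure 1 2 (Iic 0) = 0 := by
  unfold paretoMeasure
  rw [withDensity_apply _ measurableSet_Iic]
  refine le_antisymm ?_ zero_le
  calc ∫⁻ x in Iic (0 : ℝ), paretoPDF 1 2 x ≤ ∫⁻ x in Iio (1 : ℝ), paretoPDF 1 2 x :=
        lintegral_mono_set fun x (hx : x ≤ 0) => lt_of_le_of_lt hx one_pos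
    _ = 0 := lintegral_paretoPDF_of_le (le_refl 1)

lemma pareto_sq : ∫⁻ l, ENNReal.ofReal l ^ 2 ∂(paretoMeasure 1 2) = ∞ := by
  have hm : Measurable (paretoPDF 1 2) := (measurable_paretoPDFReal 1 2).ennreal_ofReal
  unfold paretoMeasure
  rw [lintegral_withDensity_eq_lintegral_mul _ hm (by fun_prop)]
  by_contra hne
  have h1 : ∫⁻ x in Ioi (1 : ℝ), ENNReal.ofReal (2 * x ^ (-1 : ℝ)) ≤
      ∫⁻ x, (paretoPDF 1 2 * fun l => ENNReal.ofReal l ^ 2) x := by
    refine le_trans (le_of_eq ?_) (setLIntegral_le_lintegral (Ioi 1) _)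
    refine setLIntegral_congr_fun measurableSet_Ioi fun x hx => ?_
    have hx' : (1 : ℝ) ≤ x := le_of_lt hx
    have hx0 : (0 : ℝ) < x := by linarith
    show _ = paretoPDF 1 2 x * ENNReal.ofReal x ^ 2
    rw [paretoPDF_of_le hx', ← ENNReal.ofReal_pow hx0.le, ← ENNReal.ofReal_mul (by positivity)]
    congr 1
    rw [Real.one_rpow, mul_one, mul_assoc, ← Real.rpow_two, ← Real.rpow_add hx0]
    norm_num
  have h2 : ∫⁻ x in Ioi (1 : ℝ), ENNReal.ofReal (2 * x ^ (-1 : ℝ)) < ∞ :=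
    lt_of_le_of_lt h1 (lt_top_iff_ne_top.2 hne)
  have h3 : IntegrableOn (fun x : ℝ => 2 * x ^ (-1 : ℝ)) (Ioi 1) := by
    refine ⟨by fun_prop, ?_⟩
    rw [hasFiniteIntegral_iff_ofReal]
    · exact h2
    · rw [Filter.EventuallyLE, ae_restrict_iff' measurableSet_Ioi]
      refine ae_of_all _ fun x hx => ?_
      have hx' : (1 : ℝ) < x := hx
      have hx0 : (0 : ℝ) < x := by linarith
      show (0 : ℝ) ≤ _
      positivity
  have h4 : IntegrableOn (fun x : ℝ => x ^ (-1 : ℝ)) (Ioi 1) := by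
    have e : (fun x : ℝ => x ^ (-1 : ℝ)) = fun x => 1 / 2 * (2 * x ^ (-1 : ℝ)) := by
      funext x
      ring
    rw [e]
    exact h3.const_mul (1 / 2)
  rw [integrableOn_Ioi_rpow_iff one_pos] at h4
  exact lt_irrefl _ h4

instance (ν : Measure ℝ) [IsProbabilityMeasure ν] : IsProbabilityMeasure (rays ν) := by
  unfold rays
  have : IsProbabilityMeasure (cond (volume : Measure ℝ) (Ico 0 (2 * Real.pi))) := by
    refine cond_isProbabilityMeasure_of_finite ?_ ?_
    · rw [Real.volume_Ico, sub_zero]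
      exact (ENNReal.ofReal_pos.2 (by positivity)).ne'
    · rw [Real.volume_Ico]
      exact ENNReal.ofReal_ne_top
  infer_instance

lemma rays_snd (ν : Measure ℝ) [IsProbabilityMeasure ν] (A : Set ℝ) :
    rays ν {y | y.2 ∈ A} = ν A := by
  unfold rays
  have : IsProbabilityMeasure (cond (volume : Measure ℝ) (Ico 0 (2 * Real.pi))) := by
    refine cond_isProbabilityMeasure_of_finite ?_ ?_
    · rw [Real.volume_Ico, sub_zero]
      exact (ENNReal.ofReal_pos.2 (by positivity)).ne'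
    · rw [Real.volume_Ico]
      exact ENNReal.ofReal_ne_top
  have e : {y : ℝ × ℝ | y.2 ∈ A} = univ ×ˢ A := by
    ext y; simp
  rw [e, Measure.prod_prod, measure_univ, one_mul]

end Pool.Agent.L0h80.CR
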