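import Pool.Agent.L0h80.CR.Geo
import Pool.Agent.R958.Animal
import Pool.Agent.Helper56_LP.Marked
import Pool.Agent.Helper56_LP.Exists

/-!
# Poisson segments in the plane: no percolation at small intensity
-/

set_option autoImplicit false

namespace Pool.Agent.L0h80.CR

open MeasureTheory ProbabilityTheory Set
open scoped ENNReal NNReal
open Pool.Agent.Helper712_LP (E IsPoissonProcess HasUnboundedComponent cell)
open Pool.Agent.Helper56_LP (measurable_cell volume_cells measurableSet_cell iInf_prod_indicator)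
open Pool.Agent.H592

/-- the weight of a key -/
noncomputable def wt (W : Measure (ℝ × ℝ)) (k : V 2 × Finset (V 2)) : ℝ≥0∞ :=
  (volume.prod W) {w : E 2 × (ℝ × ℝ) | key w = k}

lemma measurable_keys (p : V 2 × Finset (V 2) → Prop) :
    MeasurableSet {w : E 2 × (ℝ × ℝ) | p (key w)} := by
  have h : {w : E 2 × (ℝ × ℝ) | p (key w)} = ⋃ k : {k // p k}, {w | key w = k.1} := by
    ext w
    simp only [mem_ofPred_eq, mem_iUnion]
    constructor
    · intro h
      exact ⟨⟨key w, h⟩, rfl⟩
    · rintro ⟨k, hk⟩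
      rw [hk]
      exact k.2
  rw [h]
  exact MeasurableSet.iUnion fun k => measurable_key _

lemma sum_wt (W : Measure (ℝ × ℝ)) (p : V 2 × Finset (V 2) → Prop) :
    ∑' k, wt W k * one? (p k) = (volume.prod W) {w : E 2 × (ℝ × ℝ) | p (key w)} := by
  have h : {w : E 2 × (ℝ × ℝ) | p (key w)} =
      ⋃ k : V 2 × Finset (V 2), {w | key w = k ∧ p k} := by
    ext w
    simp only [mem_ofPred_eq, mem_iUnion]
    constructor
    · intro h
      exact ⟨key w, rfl, h⟩
    · rintro ⟨k, hk, h⟩
      rw [hk]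
      exact h
  have hm : ∀ k : V 2 × Finset (V 2), MeasurableSet {w | key w = k ∧ p k} := by
    intro k
    by_cases hk : p k
    · simp only [hk, and_true]
      exact measurable_key k
    · simp only [hk, and_false]
      exact MeasurableSet.const _
  rw [h, measure_iUnion _ hm]
  · refine tsum_congr fun k => ?_
    by_cases hk : p k
    · rw [one?_true hk, mul_one]
      simp only [hk, and_true]
      rfl
    · rw [one?_false hk, mul_zero]
      simp only [hk, and_false]
      exact (measure_empty).symm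
  · intro k k' hkk
    rw [Function.onFun, Set.disjoint_left]
    rintro w ⟨h1, _⟩ ⟨h2, _⟩
    exact hkk (h1.symm.trans h2)

section Model

variable {Ω : Type} [MeasurableSpace Ω] {P : Measure Ω} [IsProbabilityMeasure P] {lam : ℝ≥0}
  {W : Measure (ℝ × ℝ)} [IsProbabilityMeasure W] {X : ℕ → Ω → E 2} {Y : ℕ → Ω → ℝ × ℝ}

/-- the mass of finitely many keys is finite -/
lemma mass_lt_top (W : Measure (ℝ × ℝ)) [IsProbabilityMeasure W]
    (J : Finset (V 2 × Finset (V 2))) :
    (volume.prod W) {w : E 2 × (ℝ × ℝ) | key w ∈ J} ≠ ∞ := by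
  classical
  have h1 : {w : E 2 × (ℝ × ℝ) | key w ∈ J} ⊆ {x : E 2 | cell 1 x ∈ J.image Prod.fst} ×ˢ univ := by
    intro w hw
    refine ⟨?_, mem_univ _⟩
    show cell 1 w.1 ∈ J.image Prod.fst
    rw [Finset.mem_image]
    exact ⟨key w, hw, rfl⟩
  refine ne_top_of_le_ne_top ?_ (measure_mono h1)
  rw [Measure.prod_prod, volume_cells one_pos, measure_univ, mul_one]
  exact ENNReal.ofReal_ne_top

lemma absent (h : Segments P lam W X Y) (J : Finset (V 2 × Finset (V 2))) :
    P {ω | ∀ i, key (X i ω, Y i ω) ∉ J} = ENNReal.ofReal (Real.exp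
      (-(lam * ((volume.prod W) {w : E 2 × (ℝ × ℝ) | key w ∈ J}).toReal))) := by
  set A : Set (E 2 × (ℝ × ℝ)) := {w | key w ∈ J} with hA
  have hAm : MeasurableSet A := measurable_keys fun k => k ∈ J
  have e1 : ∫⁻ z, ∫⁻ m, A.indicator (fun _ => (1 : ℝ≥0∞)) (z, m) ∂W = (volume.prod W) A := by
    rw [← lintegral_prod _ (measurable_const.indicator hAm).aemeasurable, lintegral_indicator hAm,
      lintegral_const, Measure.restrict_apply_univ, one_mul]
  have h1 := Pool.Agent.Helper56_LP.marked 2 Ω P lam X h.points (ℝ × ℝ) Y W h.measurable h.law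
    h.indep h.indep_points (A.indicator (fun _ => (1 : ℝ≥0∞))) (measurable_const.indicator hAm)
    (fun z => by
      by_cases hz : z ∈ A
      · rw [indicator_of_mem hz]
      · rw [indicator_of_notMem hz]; exact zero_le) (by
      rw [e1]
      exact mass_lt_top W J)
  rw [e1] at h1
  have hSm : MeasurableSet {ω | ∀ i, key (X i ω, Y i ω) ∉ J} := by
    have h2 : {ω | ∀ i, key (X i ω, Y i ω) ∉ J} = ⋂ i, ((fun ω => (X i ω, Y i ω)) ⁻¹' A)ᶜ := by
      ext ω
      simp only [mem_ofPred_eq, mem_iInter, mem_compl_iff, mem_preimage, hA]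
    rw [h2]
    exact MeasurableSet.iInter fun i =>
      (((h.points.measurable i).prodMk (h.measurable i)) hAm).compl
  have h3 : ∀ ω, ⨅ m : ℕ, ∏ i ∈ Finset.range m,
      (1 - A.indicator (fun _ => (1 : ℝ≥0∞)) (X i ω, Y i ω)) =
      {ω | ∀ i, key (X i ω, Y i ω) ∉ J}.indicator (fun _ => (1 : ℝ≥0∞)) ω := by
    intro ω
    rw [iInf_prod_indicator A (fun i => (X i ω, Y i ω))]
    rfl
  simp_rw [h3] at h1
  rw [lintegral_indicator hSm, lintegral_const, Measure.restrict_apply_univ, one_mul] at h1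
  exact h1

open Classical in
/-- the presence of a key -/
noncomputable def xi (X : ℕ → Ω → E 2) (Y : ℕ → Ω → ℝ × ℝ) (k : V 2 × Finset (V 2)) (ω : Ω) :
    Bool := decide (∃ i, key (X i ω, Y i ω) = k)

omit [MeasurableSpace Ω] in
lemma xi_true (k : V 2 × Finset (V 2)) (ω : Ω) :
    xi X Y k ω = true ↔ ∃ i, key (X i ω, Y i ω) = k := by
  unfold xi
  simp

omit [MeasurableSpace Ω] in
lemma xi_false (k : V 2 × Finset (V 2)) (ω : Ω) :
    xi X Y k ω = false ↔ ∀ i, key (X i ω, Y i ω) ≠ k := by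
  unfold xi
  simp

omit [MeasurableSpace Ω] in
lemma Qs_xi (ω : Ω) : Qs (xi X Y) ω = keys (fun i => X i ω) (fun i => Y i ω) := by
  ext k
  exact xi_true k ω

omit [IsProbabilityMeasure P] [IsProbabilityMeasure W] in
lemma measurable_xi_set (h : Segments P lam W X Y) (k : V 2 × Finset (V 2)) :
    MeasurableSet {ω | xi X Y k ω = false} := by
  have h2 : {ω | xi X Y k ω = false} = ⋂ i, ((fun ω => (X i ω, Y i ω)) ⁻¹' {w | key w = k})ᶜ := by
    ext ω
    simp only [mem_ofPred_eq, mem_iInter, mem_compl_iff, mem_preimage, xi_false]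
  rw [h2]
  exact MeasurableSet.iInter fun i =>
    (((h.points.measurable i).prodMk (h.measurable i)) (measurable_key k)).compl

omit [IsProbabilityMeasure P] [IsProbabilityMeasure W] in
lemma measurable_xi (h : Segments P lam W X Y) (k : V 2 × Finset (V 2)) :
    Measurable (xi X Y k) := by
  refine measurable_to_bool ?_
  have h2 : xi X Y k ⁻¹' {true} = {ω | xi X Y k ω = false}ᶜ := by
    ext ω; simp
  rw [h2]
  exact (measurable_xi_set h k).compl

lemma absent_inter (h : Segments P lam W X Y) (J : Finset (V 2 × Finset (V 2))) :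
    P (⋂ k ∈ J, {ω | xi X Y k ω = false}) =
      ∏ k ∈ J, ENNReal.ofReal (Real.exp (-(lam * (wt W k).toReal))) := by
  classical
  have e1 : (⋂ k ∈ J, {ω | xi X Y k ω = false}) = {ω | ∀ i, key (X i ω, Y i ω) ∉ J} := by
    ext ω
    simp only [mem_iInter, mem_ofPred_eq, xi_false]
    constructor
    · intro h i hi
      exact h _ hi i rfl
    · rintro h k hk i rfl
      exact h i hk
  have e2 : (volume.prod W) {w : E 2 × (ℝ × ℝ) | key w ∈ J} = ∑ k ∈ J, wt W k := by
    have e3 : {w : E 2 × (ℝ × ℝ) | key w ∈ J} = ⋃ k ∈ J, {w | key w = k} := by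
      ext w
      simp
    rw [e3, measure_biUnion_finset]
    · rfl
    · intro k _ k' _ hkk
      rw [Function.onFun, Set.disjoint_left]
      intro w h1 h2
      exact hkk ((show key w = k from h1).symm.trans h2)
    · intro k _
      exact measurable_key k
  have hfin : ∀ k ∈ J, wt W k ≠ ∞ := fun k _ => by
    have := mass_lt_top W {k}
    simpa [wt] using this
  rw [e1, absent h J, e2, ENNReal.toReal_sum hfin,
    ← ENNReal.ofReal_prod_of_nonneg (fun k _ => (Real.exp_pos _).le), ← Real.exp_sum]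
  congr 2
  rw [Finset.sum_neg_distrib, ← Finset.mul_sum]

lemma xi_indep (h : Segments P lam W X Y) : iIndepFun (xi X Y) P := by
  have h1 : iIndepSet (fun k => {ω | xi X Y k ω = false}) P := by
    rw [iIndepSet_iff_meas_biInter (measurable_xi_set h)]
    intro J
    rw [absent_inter h J]
    refine Finset.prod_congr rfl fun k _ => ?_
    have h2 := absent_inter h {k}
    simp only [Finset.mem_singleton, Set.iInter_iInter_eq_left, Finset.prod_singleton] at h2
    exact h2.symm
  have h3 := iIndepSet.iIndepFun_indicator (β := ℕ) (m := Nat.instMeasurableSpace) h1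
  have h4 := h3.comp (fun _ n => decide (n = 0)) (fun _ => measurable_from_nat)
  convert h4 using 1
  funext k ω
  simp only [Function.comp_apply, Set.indicator_apply, Set.mem_ofPred_eq]
  by_cases h : xi X Y k ω = false
  · rw [if_pos h, h]; simp
  · rw [if_neg h]
    simpa using h

lemma xi_prob (h : Segments P lam W X Y) (k : V 2 × Finset (V 2)) :
    P {ω | xi X Y k ω = true} ≤ ENNReal.ofReal lam * wt W k := by
  have h1 := absent_inter h {k}
  simp only [Finset.mem_singleton, Set.iInter_iInter_eq_left, Finset.prod_singleton] at h1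
  have h2 : {ω | xi X Y k ω = true} = {ω | xi X Y k ω = false}ᶜ := by
    ext ω; simp
  have hfin : wt W k ≠ ∞ := by
    have := mass_lt_top W {k}
    simpa [wt] using this
  rw [h2, prob_compl_eq_one_sub (measurable_xi_set h k), h1, ← ENNReal.ofReal_one,
    ← ENNReal.ofReal_sub _ (Real.exp_pos _).le]
  conv_rhs => rw [← ENNReal.ofReal_toReal hfin, ← ENNReal.ofReal_mul (NNReal.coe_nonneg lam)]
  refine ENNReal.ofReal_le_ofReal ?_
  have h3 := Real.add_one_le_exp (-((lam : ℝ) * (wt W k).toReal))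
  linarith

end Model

/-! ### The bounds for the weights -/

lemma box_le (W : Measure (ℝ × ℝ)) [IsProbabilityMeasure W] (c : V 2) :
    ∑' k, wt W k * one? (k.1 ∈ Bx c 3) ≤ ENNReal.ofReal (7 ^ 2) := by
  rw [sum_wt W fun k => k.1 ∈ Bx c 3]
  have h1 : {w : E 2 × (ℝ × ℝ) | (key w).1 ∈ Bx c 3} = {x : E 2 | cell 1 x ∈ Bx c 3} ×ˢ univ := by
    ext w
    simp only [mem_ofPred_eq, mem_prod, mem_univ, and_true]
    rfl
  rw [h1, Measure.prod_prod, volume_cells one_pos, measure_univ, mul_one, card_Bx]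
  refine ENNReal.ofReal_le_ofReal ?_
  norm_num

lemma bad_le (W : Measure (ℝ × ℝ)) [IsProbabilityMeasure W] (h0 : W {y | y.2 ≤ 0} = 0) (C : ℝ≥0)
    (hC : ∀ r : ℝ, 1 ≤ r → ENNReal.ofReal r * ∫⁻ y in {y | r ≤ y.2}, ENNReal.ofReal y.2 ∂W ≤ C)
    (c : V 2) (r : ℕ) (hr : 1 ≤ r) :
    ∑' k, wt W k * one? (bad c r k) ≤ ENNReal.ofReal (696000 * C + 12000000) := by
  rw [sum_wt W (bad c r), Measure.prod_apply_symm (measurable_keys (bad c r))]
  have hr0 : (0 : ℝ) < r := by exact_mod_cast hr
  have hpos : ∀ᵐ y ∂W, 0 < y.2 := by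
    rw [ae_iff]
    simpa only [not_lt] using h0
  have hR : (((24 * r : ℕ) : ℝ)) = 24 * r := by push_cast; ring
  have hin : ∀ y : ℝ × ℝ, volume ((fun x : E 2 => (x, y)) ⁻¹' {w | bad c r (key w)}) ≤
      {y : ℝ × ℝ | (r : ℝ) < |y.2| + 4}.indicator
        (fun y => ENNReal.ofReal (2400 * r * |y.2| + 172800 * r ^ 2)) y := by
    intro y
    by_cases hy : (r : ℝ) < |y.2| + 4
    · rw [indicator_of_mem (show y ∈ {y : ℝ × ℝ | (r : ℝ) < |y.2| + 4} from hy)]
      have h1 : (fun x : E 2 => (x, y)) ⁻¹' {w | bad c r (key w)} ⊆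
          {x : E 2 | touches (key (x, y)) c (24 * r)} := fun x hx => hx.1
      refine (measure_mono h1).trans ((volume_touch c (by omega) y).trans ?_)
      refine ENNReal.ofReal_le_ofReal ?_
      rw [hR]
      nlinarith
    · have h1 : (fun x : E 2 => (x, y)) ⁻¹' {w | bad c r (key w)} = ∅ := by
        rw [Set.eq_empty_iff_forall_notMem]
        intro x hx
        exact hy (bad_len hx)
      rw [h1, measure_empty]
      exact zero_le
  refine (lintegral_mono hin).trans ?_
  rcases le_or_gt 8 r with h8 | h8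
  · have h8' : (8 : ℝ) ≤ r := by exact_mod_cast h8
    set s : ℝ := r / 2 with hs
    have hs1 : 1 ≤ s := by linarith
    have hle : ∀ᵐ y ∂W, {y : ℝ × ℝ | (r : ℝ) < |y.2| + 4}.indicator
        (fun y => ENNReal.ofReal (2400 * r * |y.2| + 172800 * r ^ 2)) y ≤
        {y : ℝ × ℝ | s ≤ y.2}.indicator
          (fun y => ENNReal.ofReal 696000 * (ENNReal.ofReal s * ENNReal.ofReal y.2)) y := by
      filter_upwards [hpos] with y hy
      by_cases hy' : (r : ℝ) < |y.2| + 4
      · rw [abs_of_pos hy] at hy'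
        have hsy : s ≤ y.2 := by linarith
        rw [indicator_of_mem (show y ∈ {y : ℝ × ℝ | s ≤ y.2} from hsy),
          indicator_of_mem (show y ∈ {y : ℝ × ℝ | (r : ℝ) < |y.2| + 4} by
            show (r : ℝ) < |y.2| + 4
            rw [abs_of_pos hy]; exact hy'),
          ← ENNReal.ofReal_mul (by linarith), ← ENNReal.ofReal_mul (by norm_num), abs_of_pos hy]
        refine ENNReal.ofReal_le_ofReal ?_
        have h3 : (r : ℝ) ≤ 2 * y.2 := by linarith
        nlinarith
      · rw [indicator_of_notMem (show y ∉ {y : ℝ × ℝ | (r : ℝ) < |y.2| + 4} from hy')]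
        exact zero_le
    refine (lintegral_mono_ae hle).trans ?_
    have hms : MeasurableSet {y : ℝ × ℝ | s ≤ y.2} := measurableSet_le measurable_const measurable_snd
    rw [lintegral_indicator hms, lintegral_const_mul' _ _ ENNReal.ofReal_ne_top,
      lintegral_const_mul' _ _ ENNReal.ofReal_ne_top]
    refine (mul_le_mul' le_rfl (hC s hs1)).trans ?_
    rw [← ENNReal.ofReal_coe_nnreal, ← ENNReal.ofReal_mul (by norm_num)]
    refine ENNReal.ofReal_le_ofReal ?_
    linarith [C.2]
  · have h8' : (r : ℝ) ≤ 7 := by exact_mod_cast (by omega : r ≤ 7)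
    have hle : ∀ᵐ y ∂W, {y : ℝ × ℝ | (r : ℝ) < |y.2| + 4}.indicator
        (fun y => ENNReal.ofReal (2400 * r * |y.2| + 172800 * r ^ 2)) y ≤
        ENNReal.ofReal 10000000 + {y : ℝ × ℝ | 1 ≤ y.2}.indicator
          (fun y => ENNReal.ofReal 16800 * ENNReal.ofReal y.2) y := by
      filter_upwards [hpos] with y hy
      refine (indicator_le_self' (fun _ _ => zero_le) y).trans ?_
      rw [abs_of_pos hy]
      have hr2 : (r : ℝ) ^ 2 ≤ 49 := by nlinarith
      by_cases h1 : 1 ≤ y.2
      · rw [indicator_of_mem (show y ∈ {y : ℝ × ℝ | 1 ≤ y.2} from h1),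
          ← ENNReal.ofReal_mul (by norm_num), ← ENNReal.ofReal_add (by norm_num) (by positivity)]
        refine ENNReal.ofReal_le_ofReal ?_
        nlinarith
      · rw [indicator_of_notMem (show y ∉ {y : ℝ × ℝ | 1 ≤ y.2} from h1), add_zero]
        refine ENNReal.ofReal_le_ofReal ?_
        push Not at h1
        nlinarith
    refine (lintegral_mono_ae hle).trans ?_
    have hms : MeasurableSet {y : ℝ × ℝ | 1 ≤ y.2} := measurableSet_le measurable_const measurable_snd
    rw [lintegral_add_left measurable_const, lintegral_const, measure_univ, mul_one,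
      lintegral_indicator hms, lintegral_const_mul' _ _ ENNReal.ofReal_ne_top]
    have h3 := hC 1 le_rfl
    rw [ENNReal.ofReal_one, one_mul] at h3
    refine (add_le_add le_rfl (mul_le_mul' le_rfl h3)).trans ?_
    rw [← ENNReal.ofReal_coe_nnreal, ← ENNReal.ofReal_mul (by norm_num),
      ← ENNReal.ofReal_add (by norm_num) (by positivity)]
    refine ENNReal.ofReal_le_ofReal ?_
    have := C.2
    have h5 : (0 : ℝ) ≤ C := C.2
    linarith

/-- no percolation at small intensity -/
theorem no_perc (W : Measure (ℝ × ℝ)) [IsProbabilityMeasure W] (h0 : W {y | y.2 ≤ 0} = 0)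
    (C : ℝ≥0)
    (hC : ∀ r : ℝ, 1 ≤ r → ENNReal.ofReal r * ∫⁻ y in {y | r ≤ y.2}, ENNReal.ofReal y.2 ∂W ≤ C) :
    ∃ v : ℝ, 0 < v ∧ ∀ (Ω : Type) [MeasurableSpace Ω] (P : Measure Ω) [IsProbabilityMeasure P]
      (lam : ℝ≥0) (X : ℕ → Ω → E 2) (Y : ℕ → Ω → ℝ × ℝ), Segments P lam W X Y → lam ≤ v →
      P {ω | HasUnboundedComponent (occupied (fun i => X i ω) (fun i => Y i ω))} = 0 := by
  obtain ⟨v, hv, H⟩ := Pool.Agent.R958.Animal.upper_gen (d := 2) (wt W) _ (bad_le W h0 C hC)
    (box_le W)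
  refine ⟨v, hv, ?_⟩
  intro Ω _ P _ lam X Y h hlam
  have h1 := H Ω P (xi X Y) (measurable_xi h) (xi_indep h) (fun k => (xi_prob h k).trans
    (mul_le_mul' (ENNReal.ofReal_le_ofReal hlam) le_rfl))
  refine measure_mono_null ?_ h1
  intro ω hω
  show perc (occ (Qs (xi X Y) ω))
  rw [Qs_xi]
  exact perc_of_unbounded hω

theorem critical_pos (W : Measure (ℝ × ℝ)) [IsProbabilityMeasure W] (h0 : W {y | y.2 ≤ 0} = 0)
    (C : ℝ≥0)
    (hC : ∀ r : ℝ, 1 ≤ r → ENNReal.ofReal r * ∫⁻ y in {y | r ≤ y.2}, ENNReal.ofReal y.2 ∂W ≤ C) :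
    0 < critical W := by
  obtain ⟨v, hv, H⟩ := no_perc W h0 C hC
  refine lt_of_lt_of_le (ENNReal.ofReal_pos.2 hv) ?_
  unfold critical
  refine le_sInf ?_
  rintro c ⟨lam, hlam, rfl, Ω, _, P, _, X, Y, h, hP⟩
  by_contra hlt
  push Not at hlt
  have h1 : (lam : ℝ) ≤ v := by
    rw [← ENNReal.ofReal_coe_nnreal] at hlt
    exact ((ENNReal.ofReal_lt_ofReal_iff_of_nonneg lam.2).1 hlt).le
  rw [H Ω P lam X Y h h1] at hP
  exact lt_irrefl _ hP

end Pool.Agent.L0h80.CR
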